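import Pool.Agent.Y522.ML.Small

/-!
# Symplectic diffeomorphisms with a given generating function
-/

set_option autoImplicit false

open Set Filter Topology Metric Function
open scoped ContDiff RealInnerProductSpace

noncomputable section

namespace Pool.Agent.Y522.ML

variable {n : ℕ}

theorem riesz (l : E n →L[ℝ] ℝ) (a : E n) :
    ⟪∑ i, l (EuclideanSpace.single i 1) • (EuclideanSpace.single i (1 : ℝ) : E n), a⟫ = l a := by
  have h1 : a = ∑ i, a i • (EuclideanSpace.single i (1 : ℝ) : E n) := by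
    have := (EuclideanSpace.basisFun (Fin n) ℝ).sum_repr a
    simpa using this.symm
  have h2 : l a = ∑ i, a i * l (EuclideanSpace.single i 1) := by
    conv_lhs => rw [h1]
    simp [map_sum]
  rw [h2, sum_inner]
  refine Finset.sum_congr rfl fun i _ => ?_
  rw [inner_smul_left, EuclideanSpace.inner_single_left]
  simp
  ring

/-- the gradient of `K` -/
theorem exists_grad (K : E n × E n → ℝ) (hK : ContDiff ℝ ∞ K)
    (hp : ∀ w (k : Fin n → ℤ), K (w.1 + latt k, w.2) = K w) (R : ℝ)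
    (h0 : ∀ w, R < ‖w.2‖ → K w = 0) :
    ∃ (k₁ k₂ : E n × E n → E n) (M : ℝ), 0 ≤ M ∧ ContDiff ℝ ∞ k₁ ∧ ContDiff ℝ ∞ k₂ ∧
      (∀ w a, fderiv ℝ K w a = ⟪k₁ w, a.1⟫ + ⟪k₂ w, a.2⟫) ∧
      (∀ w (k : Fin n → ℤ), k₁ (w.1 + latt k, w.2) = k₁ w) ∧
      (∀ w (k : Fin n → ℤ), k₂ (w.1 + latt k, w.2) = k₂ w) ∧
      (∀ w, ‖k₁ w‖ ≤ M) ∧ (∀ w, ‖k₂ w‖ ≤ M) ∧ (∀ w w', ‖k₁ w - k₁ w'‖ ≤ M * ‖w - w'‖) ∧
      (∀ w w', ‖k₂ w - k₂ w'‖ ≤ M * ‖w - w'‖) := by
  have hD : ContDiff ℝ ∞ (fderiv ℝ K) := hK.fderiv_right (by simp)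
  have htr : ∀ (w : E n × E n) (k : Fin n → ℤ), w + (latt k, 0) = (w.1 + latt k, w.2) := by
    intro w k
    refine Prod.ext rfl ?_
    simp
  -- general facts on periodic functions with bounded support
  have key : ∀ (v : Fin n → E n × E n), ∃ (k₁ : E n × E n → E n) (M : ℝ), 0 ≤ M ∧
      (∀ w, k₁ w = ∑ i, fderiv ℝ K w (v i) • (EuclideanSpace.single i (1 : ℝ) : E n)) ∧
      ContDiff ℝ ∞ k₁ ∧ (∀ w (k : Fin n → ℤ), k₁ (w.1 + latt k, w.2) = k₁ w) ∧
      (∀ w, ‖k₁ w‖ ≤ M) ∧ (∀ w w', ‖k₁ w - k₁ w'‖ ≤ M * ‖w - w'‖) := by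
    intro v
    obtain ⟨f, hfd⟩ : ∃ f : E n × E n → E n,
      f = fun w => ∑ i, fderiv ℝ K w (v i) • (EuclideanSpace.single i (1 : ℝ) : E n) := ⟨_, rfl⟩
    have hf : ContDiff ℝ ∞ f := by
      rw [hfd]
      exact ContDiff.sum fun i _ => (hD.clm_apply contDiff_const).smul contDiff_const
    have hDp : ∀ w (k : Fin n → ℤ), fderiv ℝ K (w.1 + latt k, w.2) = fderiv ℝ K w := by
      intro w k
      have h1 : (fun y => K (y + (latt k, 0))) = K := by
        funext y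
        rw [htr]
        exact hp y k
      have h2 := fderiv_comp_add_right (𝕜 := ℝ) (f := K) (x := w) ((latt k, 0) : E n × E n)
      rw [h1, htr] at h2
      exact h2.symm
    have hfp : ∀ w (k : Fin n → ℤ), f (w.1 + latt k, w.2) = f w := by
      intro w k
      rw [hfd]
      simp only [hDp]
    have hfDp : ∀ w (k : Fin n → ℤ), fderiv ℝ f (w.1 + latt k, w.2) = fderiv ℝ f w := by
      intro w k
      have h1 : (fun y => f (y + (latt k, 0))) = f := by
        funext y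
        rw [htr]
        exact hfp y k
      have h2 := fderiv_comp_add_right (𝕜 := ℝ) (f := f) (x := w) ((latt k, 0) : E n × E n)
      rw [h1, htr] at h2
      exact h2.symm
    have hop : ∀ w : E n × E n, R < ‖w.2‖ → ∀ᶠ y : E n × E n in 𝓝 w, R < ‖y.2‖ := fun w hw =>
      (continuous_snd.norm.continuousAt (x := w)).eventually (lt_mem_nhds hw)
    have hD0 : ∀ w, R < ‖w.2‖ → fderiv ℝ K w = 0 := by
      intro w hw
      have h1 : K =ᶠ[𝓝 w] fun _ => (0 : ℝ) := by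
        filter_upwards [hop w hw] with y hy
        exact h0 y hy
      rw [h1.fderiv_eq]
      simp
    have hf0 : ∀ w, R < ‖w.2‖ → f w = 0 := by
      intro w hw
      rw [hfd]
      simp only [hD0 w hw]
      simp
    have hfD0 : ∀ w, R < ‖w.2‖ → fderiv ℝ f w = 0 := by
      intro w hw
      have h1 : f =ᶠ[𝓝 w] fun _ => (0 : E n) := by
        filter_upwards [hop w hw] with y hy
        exact hf0 y hy
      rw [h1.fderiv_eq]
      simp
    obtain ⟨M₁, hM₁, hb₁⟩ := bddper f hf.continuous hfp R hf0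
    obtain ⟨M₂, hM₂, hb₂⟩ := bddper (fderiv ℝ f) (hf.continuous_fderiv (by simp)) hfDp R hfD0
    refine ⟨f, max M₁ M₂, hM₁.trans (le_max_left _ _), fun w => by rw [hfd], hf, hfp,
      fun w => (hb₁ w).trans (le_max_left _ _), fun w w' => ?_⟩
    refine Convex.norm_image_sub_le_of_norm_fderiv_le (𝕜 := ℝ) (s := univ) (fun x _ =>
      (hf.differentiable (by simp)).differentiableAt) (fun x _ => (hb₂ x).trans (le_max_right _ _))
      convex_univ (mem_univ _) (mem_univ _)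
  obtain ⟨k₁, M₁, hM₁, a1, a2, a3, a4, a5⟩ := key fun i => (EuclideanSpace.single i 1, 0)
  obtain ⟨k₂, M₂, hM₂, b1, b2, b3, b4, b5⟩ := key fun i => (0, EuclideanSpace.single i 1)
  refine ⟨k₁, k₂, max M₁ M₂, hM₁.trans (le_max_left _ _), a2, b2, fun w a => ?_, a3, b3,
    fun w => (a4 w).trans (le_max_left _ _), fun w => (b4 w).trans (le_max_right _ _),
    fun w w' => (a5 w w').trans (mul_le_mul_of_nonneg_right (le_max_left _ _) (norm_nonneg _)),
    fun w w' => (b5 w w').trans (mul_le_mul_of_nonneg_right (le_max_right _ _) (norm_nonneg _))⟩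
  have h1 := riesz ((fderiv ℝ K w).comp (ContinuousLinearMap.inl ℝ (E n) (E n))) a.1
  have h2 := riesz ((fderiv ℝ K w).comp (ContinuousLinearMap.inr ℝ (E n) (E n))) a.2
  simp only [ContinuousLinearMap.comp_apply, ContinuousLinearMap.inl_apply,
    ContinuousLinearMap.inr_apply] at h1 h2
  rw [a1, b1, h1, h2, ← map_add]
  simp

/-- the symplectic diffeomorphism generated by `t K` -/
theorem exists_gen (K : E n × E n → ℝ) (hK : ContDiff ℝ ∞ K) {k₁ k₂ : E n × E n → E n} {M : ℝ}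
    (s1 : ContDiff ℝ ∞ k₁) (s2 : ContDiff ℝ ∞ k₂)
    (hk : ∀ w a, fderiv ℝ K w a = ⟪k₁ w, a.1⟫ + ⟪k₂ w, a.2⟫)
    (p1 : ∀ w (k : Fin n → ℤ), k₁ (w.1 + latt k, w.2) = k₁ w)
    (p2 : ∀ w (k : Fin n → ℤ), k₂ (w.1 + latt k, w.2) = k₂ w)
    (l1 : ∀ w w', ‖k₁ w - k₁ w'‖ ≤ M * ‖w - w'‖) (l2 : ∀ w w', ‖k₂ w - k₂ w'‖ ≤ M * ‖w - w'‖)
    {t : ℝ} (ht : 0 ≤ t) (htM : t * M ≤ 1 / 2) :
    ∃ Φ : E n × E n ≃ E n × E n, ContDiff ℝ ∞ Φ ∧ ContDiff ℝ ∞ Φ.symm ∧
      (∀ z k, Φ (z.1 + latt k, z.2) = ((Φ z).1 + latt k, (Φ z).2)) ∧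
      (∀ z a b, om (fderiv ℝ Φ z a) (fderiv ℝ Φ z b) = om a b) ∧
      ∀ z, ∃ w, w.2 = z.2 ∧ w.1 = z.1 + t • k₂ w ∧ Φ z = (w.1, w.2 - t • k₁ w) := by
  have hlip : ∀ {k : E n × E n → E n}, (∀ w w', ‖k w - k w'‖ ≤ M * ‖w - w'‖) → ∀ w w',
      ‖-(t • k w) - -(t • k w')‖ ≤ 1 / 2 * ‖w - w'‖ := by
    intro k hk w w'
    have h1 : -(t • k w) - -(t • k w') = -(t • (k w - k w')) := by
      rw [smul_sub]
      abel
    rw [h1, norm_neg, norm_smul, Real.norm_of_nonneg ht]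
    calc t * ‖k w - k w'‖ ≤ t * (M * ‖w - w'‖) := mul_le_mul_of_nonneg_left (hk w w') ht
      _ = (t * M) * ‖w - w'‖ := by ring
      _ ≤ _ := mul_le_mul_of_nonneg_right htM (norm_nonneg _)
  obtain ⟨e₁, he₁, e₁s, e₁i⟩ := small (fun w : E n × E n => (-(t • k₂ w), (0 : E n)))
    ((s2.const_smul t).neg.prodMk contDiff_const) (fun w w' => by
      have h1 := hlip l2 w w'
      have h2 : ((-(t • k₂ w), (0 : E n)) - (-(t • k₂ w'), (0 : E n))) =
          (-(t • k₂ w) - -(t • k₂ w'), 0) := by simp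
      rw [h2, Prod.norm_def]
      simp only [norm_zero]
      exact max_le h1 (by positivity))
  obtain ⟨e₂, he₂, e₂s, e₂i⟩ := small (fun w : E n × E n => ((0 : E n), -(t • k₁ w)))
    (contDiff_const.prodMk (s1.const_smul t).neg) (fun w w' => by
      have h1 := hlip l1 w w'
      have h2 : (((0 : E n), -(t • k₁ w)) - ((0 : E n), -(t • k₁ w'))) =
          (0, -(t • k₁ w) - -(t • k₁ w')) := by simp
      rw [h2, Prod.norm_def]
      simp only [norm_zero]
      exact max_le (by positivity) h1)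
  have per₁ : ∀ w (k : Fin n → ℤ), e₁ (w.1 + latt k, w.2) = ((e₁ w).1 + latt k, (e₁ w).2) := by
    intro w k
    rw [he₁, he₁, p2]
    refine Prod.ext ?_ ?_
    · simp only [Prod.fst_add]
      abel
    · simp
  have per₁' : ∀ z (k : Fin n → ℤ),
      e₁.symm (z.1 + latt k, z.2) = ((e₁.symm z).1 + latt k, (e₁.symm z).2) := by
    intro z k
    rw [Equiv.symm_apply_eq, per₁]
    simp
  have hd1 : ∀ w a, fderiv ℝ e₁ w a = (a.1 - t • fderiv ℝ k₂ w a, a.2) := by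
    intro w a
    have h1 : (e₁ : E n × E n → E n × E n) = fun w => w + (-(t • k₂ w), (0 : E n)) := funext he₁
    have h2 : HasFDerivAt k₂ (fderiv ℝ k₂ w) w :=
      (s2.differentiable (by simp)).differentiableAt.hasFDerivAt
    have h3 : HasFDerivAt (fun w : E n × E n => w + (-(t • k₂ w), (0 : E n)))
        (ContinuousLinearMap.id ℝ _ + (-(t • fderiv ℝ k₂ w)).prod 0) w :=
      (hasFDerivAt_id w).add ((h2.const_smul t).neg.prodMk (hasFDerivAt_const _ _))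
    rw [h1, h3.fderiv]
    refine Prod.ext ?_ ?_
    · show a.1 + -(t • fderiv ℝ k₂ w a) = _
      abel
    · show a.2 + 0 = _
      rw [add_zero]
  have hd2 : ∀ w a, fderiv ℝ e₂ w a = (a.1, a.2 - t • fderiv ℝ k₁ w a) := by
    intro w a
    have h1 : (e₂ : E n × E n → E n × E n) = fun w => w + ((0 : E n), -(t • k₁ w)) := funext he₂
    have h2 : HasFDerivAt k₁ (fderiv ℝ k₁ w) w :=
      (s1.differentiable (by simp)).differentiableAt.hasFDerivAt
    have h3 : HasFDerivAt (fun w : E n × E n => w + ((0 : E n), -(t • k₁ w)))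
        (ContinuousLinearMap.id ℝ _ + (0 : E n × E n →L[ℝ] E n).prod (-(t • fderiv ℝ k₁ w))) w :=
      (hasFDerivAt_id w).add ((hasFDerivAt_const _ _).prodMk (h2.const_smul t).neg)
    rw [h1, h3.fderiv]
    refine Prod.ext ?_ ?_
    · show a.1 + 0 = _
      rw [add_zero]
    · show a.2 + -(t • fderiv ℝ k₁ w a) = _
      abel
  -- symmetry of the second derivative
  have hsym : ∀ w a b, ⟪fderiv ℝ k₁ w a, b.1⟫ + ⟪fderiv ℝ k₂ w a, b.2⟫ =
      ⟪fderiv ℝ k₁ w b, a.1⟫ + ⟪fderiv ℝ k₂ w b, a.2⟫ := by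
    intro w
    have hD : ContDiff ℝ ∞ (fderiv ℝ K) := hK.fderiv_right (by simp)
    have h2 : HasFDerivAt (fderiv ℝ K) (fderiv ℝ (fderiv ℝ K) w) w :=
      (hD.differentiable (by simp)).differentiableAt.hasFDerivAt
    have hs : ∀ a b, fderiv ℝ (fderiv ℝ K) w a b = fderiv ℝ (fderiv ℝ K) w b a := by
      intro a b
      exact second_derivative_symmetric (fun y =>
        (hK.differentiable (by simp)).differentiableAt.hasFDerivAt) h2 a b
    have hf : ∀ a b, fderiv ℝ (fderiv ℝ K) w a b =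
        ⟪fderiv ℝ k₁ w a, b.1⟫ + ⟪fderiv ℝ k₂ w a, b.2⟫ := by
      intro a b
      have h3 : HasFDerivAt (fun y => fderiv ℝ K y b)
          ((fderiv ℝ (fderiv ℝ K) w).flip b) w := by
        have := h2.clm_apply (hasFDerivAt_const b w)
        simpa using this
      have d1 : HasFDerivAt k₁ (fderiv ℝ k₁ w) w :=
        (s1.differentiable (by simp)).differentiableAt.hasFDerivAt
      have d2 : HasFDerivAt k₂ (fderiv ℝ k₂ w) w :=
        (s2.differentiable (by simp)).differentiableAt.hasFDerivAt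
      have h4 : HasFDerivAt (fun y => ⟪b.1, k₁ y⟫ + ⟪b.2, k₂ y⟫)
          ((innerSL ℝ b.1).comp (fderiv ℝ k₁ w) + (innerSL ℝ b.2).comp (fderiv ℝ k₂ w)) w :=
        ((innerSL ℝ b.1).hasFDerivAt.comp w d1).add ((innerSL ℝ b.2).hasFDerivAt.comp w d2)
      have h5 : (fun y => fderiv ℝ K y b) = fun y => ⟪b.1, k₁ y⟫ + ⟪b.2, k₂ y⟫ := by
        funext y
        rw [hk, real_inner_comm, real_inner_comm (k₂ y)]
      rw [h5] at h3
      have h6 := congrArg (fun L : E n × E n →L[ℝ] ℝ => L a) (h3.unique h4)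
      have h7 : fderiv ℝ (fderiv ℝ K) w a b = ⟪b.1, fderiv ℝ k₁ w a⟫ + ⟪b.2, fderiv ℝ k₂ w a⟫ := h6
      rw [h7, real_inner_comm, real_inner_comm (fderiv ℝ k₂ w a)]
    intro a b
    rw [← hf, ← hf, hs]
  refine ⟨e₁.symm.trans e₂, e₂s.comp e₁i, e₁s.comp e₂i, fun z k => ?_, fun z a b => ?_,
    fun z => ⟨e₁.symm z, ?_, ?_, ?_⟩⟩
  · show e₂ (e₁.symm (z.1 + latt k, z.2)) = ((e₂ (e₁.symm z)).1 + latt k, (e₂ (e₁.symm z)).2)
    rw [per₁', he₂, he₂, p1]
    refine Prod.ext ?_ ?_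
    · simp
    · simp
  · obtain ⟨w, hw⟩ : ∃ w, w = e₁.symm z := ⟨_, rfl⟩
    have hz : e₁ w = z := by rw [hw, Equiv.apply_symm_apply]
    have f1 : HasFDerivAt e₁ (fderiv ℝ e₁ w) w :=
      (e₁s.differentiable (by simp)).differentiableAt.hasFDerivAt
    have f2 : HasFDerivAt e₂ (fderiv ℝ e₂ w) w :=
      (e₂s.differentiable (by simp)).differentiableAt.hasFDerivAt
    have f3 : HasFDerivAt e₁.symm (fderiv ℝ e₁.symm z) z :=
      (e₁i.differentiable (by simp)).differentiableAt.hasFDerivAt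
    rw [hw] at f1 f2
    have f4 : HasFDerivAt (fun y => e₂ (e₁.symm y)) ((fderiv ℝ e₂ w).comp (fderiv ℝ e₁.symm z)) z := by
      rw [hw]
      exact f2.comp z f3
    have f5 : HasFDerivAt (fun y => e₁ (e₁.symm y)) ((fderiv ℝ e₁ w).comp (fderiv ℝ e₁.symm z)) z := by
      rw [hw]
      exact f1.comp z f3
    have f6 : (fun y => e₁ (e₁.symm y)) = id := by
      funext y
      simp
    rw [f6] at f5
    have f7 := f5.unique (hasFDerivAt_id z)
    have f8 : ∀ a, fderiv ℝ e₁ w (fderiv ℝ e₁.symm z a) = a := fun a =>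
      congrArg (fun L : E n × E n →L[ℝ] E n × E n => L a) f7
    have f9 : fderiv ℝ (e₁.symm.trans e₂) z = (fderiv ℝ e₂ w).comp (fderiv ℝ e₁.symm z) := f4.fderiv
    rw [f9]
    obtain ⟨a', ha'⟩ : ∃ a', a' = fderiv ℝ e₁.symm z a := ⟨_, rfl⟩
    obtain ⟨b', hb'⟩ : ∃ b', b' = fderiv ℝ e₁.symm z b := ⟨_, rfl⟩
    have ga := f8 a
    have gb := f8 b
    rw [← ha'] at ga
    rw [← hb'] at gb
    show om (fderiv ℝ e₂ w (fderiv ℝ e₁.symm z a)) (fderiv ℝ e₂ w (fderiv ℝ e₁.symm z b)) = om a b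
    rw [← ha', ← hb', ← ga, ← gb, hd1, hd1, hd2, hd2]
    simp only [om, inner_sub_left, inner_sub_right, inner_smul_left, inner_smul_right,
      RCLike.conj_to_real]
    have h1 := hsym w a' b'
    have h2 := real_inner_comm a'.2 (fderiv ℝ k₂ w b')
    have h3 := real_inner_comm b'.2 (fderiv ℝ k₂ w a')
    have h4 : t * (⟪fderiv ℝ k₁ w a', b'.1⟫ + ⟪fderiv ℝ k₂ w a', b'.2⟫) =
      t * (⟪fderiv ℝ k₁ w b', a'.1⟫ + ⟪fderiv ℝ k₂ w b', a'.2⟫) := by rw [h1]
    rw [h2, h3] at *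
    linarith
  · have h1 : e₁ (e₁.symm z) = z := e₁.apply_symm_apply z
    rw [he₁] at h1
    have h2 := congrArg Prod.snd h1
    simp only [Prod.snd_add, add_zero] at h2
    exact h2
  · have h1 : e₁ (e₁.symm z) = z := e₁.apply_symm_apply z
    rw [he₁] at h1
    have h2 := congrArg Prod.fst h1
    simp only [Prod.fst_add] at h2
    rw [← h2]
    abel
  · show e₂ (e₁.symm z) = _
    rw [he₂]
    refine Prod.ext ?_ ?_
    · simp
    · simp only [Prod.snd_add]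
      abel

end Pool.Agent.Y522.ML
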