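import Pool.Agent.Y522.ML.Main

/-!
# One-sided Lipschitz Lagrangian submanifolds of the cotangent bundle of the torus
-/

set_option autoImplicit false

open Set Filter Topology Metric Function
open scoped ContDiff RealInnerProductSpace

noncomputable section

namespace Pool.Agent.Y522.ML

variable {n : ℕ}

/-- the quantitative transversality from the one-sided Lipschitz condition -/
theorem lower {B : E n ≃L[ℝ] E n} {C : ℝ} {q p : E n}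
    (h : -C * ‖q‖ ^ 2 ≤ ⟪q, B p⟫) {t b : ℝ} (ht : 0 < t) (htC : 4 * t * C ≤ 1) (hb : 0 < b)
    (hbB : b * ‖p‖ ≤ ‖B p‖) :
    min (1 / 2) (t * b) * ‖(q, p)‖ ≤ ‖q + t • B p‖ := by
  have h1 : ‖q + t • B p‖ ^ 2 = ‖q‖ ^ 2 + 2 * t * ⟪q, B p⟫ + t ^ 2 * ‖B p‖ ^ 2 := by
    rw [norm_add_sq_real, norm_smul, inner_smul_right, Real.norm_of_nonneg ht.le]
    ring
  have h2 : 1 / 2 * ‖q‖ ^ 2 + (t * b) ^ 2 * ‖p‖ ^ 2 ≤ ‖q + t • B p‖ ^ 2 := by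
    rw [h1]
    have h3 : 2 * t * (-C * ‖q‖ ^ 2) ≤ 2 * t * ⟪q, B p⟫ :=
      mul_le_mul_of_nonneg_left h (by positivity)
    have h4 : (b * ‖p‖) ^ 2 ≤ ‖B p‖ ^ 2 := pow_le_pow_left₀ (by positivity) hbB 2
    have h5 : t ^ 2 * (b * ‖p‖) ^ 2 ≤ t ^ 2 * ‖B p‖ ^ 2 := mul_le_mul_of_nonneg_left h4 (by positivity)
    have h6 : 4 * t * C * ‖q‖ ^ 2 ≤ 1 * ‖q‖ ^ 2 := mul_le_mul_of_nonneg_right htC (by positivity)
    nlinarith
  have hm0 : 0 ≤ min (1 / 2) (t * b) := le_min (by norm_num) (by positivity)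
  have hm1 : min (1 / 2) (t * b) ≤ 1 / 2 := min_le_left _ _
  have hm2 : min (1 / 2) (t * b) ≤ t * b := min_le_right _ _
  refine le_of_sq_le_sq ?_ (norm_nonneg _)
  refine le_trans ?_ h2
  rw [mul_pow, Prod.norm_def]
  rcases le_total ‖q‖ ‖p‖ with hqp | hqp
  · rw [max_eq_right hqp]
    have h7 : min (1 / 2) (t * b) ^ 2 * ‖p‖ ^ 2 ≤ (t * b) ^ 2 * ‖p‖ ^ 2 :=
      mul_le_mul_of_nonneg_right (pow_le_pow_left₀ hm0 hm2 2) (by positivity)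
    have h8 : 0 ≤ 1 / 2 * ‖q‖ ^ 2 := by positivity
    linarith
  · rw [max_eq_left hqp]
    have h7 : min (1 / 2) (t * b) ^ 2 * ‖q‖ ^ 2 ≤ (1 / 2) ^ 2 * ‖q‖ ^ 2 :=
      mul_le_mul_of_nonneg_right (pow_le_pow_left₀ hm0 hm1 2) (by positivity)
    have h8 : 0 ≤ (t * b) ^ 2 * ‖p‖ ^ 2 := by positivity
    have h9 : 0 ≤ ‖q‖ ^ 2 := by positivity
    nlinarith

/-- a closed Lagrangian submanifold of `T*T^n` which satisfies a one-sided Lipschitz condition is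
the image of the zero section -/
theorem lin {Λ : Set (E n × E n)} (hΛ : LagT n Λ) (B : E n ≃L[ℝ] E n)
    (hB : ∀ v w, ⟪B v, w⟫ = ⟪v, B w⟫) {C δ : ℝ} (hδ : 0 < δ)
    (hC : ∀ z ∈ Λ, ∀ z' ∈ Λ, ‖z.1 - z'.1‖ < δ →
      -C * ‖z.1 - z'.1‖ ^ 2 ≤ ⟪z.1 - z'.1, B (z.2 - z'.2)⟫) :
    ∃ ψ : E n × E n ≃ E n × E n, ContDiff ℝ ∞ ψ ∧ ContDiff ℝ ∞ ψ.symm ∧
      (∀ z k, ψ (z.1 + latt k, z.2) = ((ψ z).1 + latt k, (ψ z).2)) ∧
      (∀ z a b, om (fderiv ℝ ψ z a) (fderiv ℝ ψ z b) = om a b) ∧ ψ '' {z | z.2 = 0} = Λ := by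
  obtain ⟨R, hR⟩ := hΛ.bdd
  obtain ⟨z₀, hz₀⟩ := hΛ.nonempty
  have hR0 : 0 ≤ R := (norm_nonneg _).trans (hR _ hz₀)
  obtain ⟨M, hMd⟩ : ∃ M : ℝ, M = ‖(B : E n →L[ℝ] E n)‖ := ⟨_, rfl⟩
  have hM0 : 0 ≤ M := by rw [hMd]; exact norm_nonneg _
  have hM : ∀ v, ‖B v‖ ≤ M * ‖v‖ := by
    intro v
    rw [hMd]
    exact (B : E n →L[ℝ] E n).le_opNorm v
  obtain ⟨C', hC'⟩ : ∃ C' : ℝ, C' = max C (M * (2 * R) / δ) := ⟨_, rfl⟩
  have hglob : ∀ z ∈ Λ, ∀ z' ∈ Λ,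
      -C' * ‖z.1 - z'.1‖ ^ 2 ≤ ⟪z.1 - z'.1, B (z.2 - z'.2)⟫ := by
    intro z hz z' hz'
    have hn : 0 ≤ ‖z.1 - z'.1‖ ^ 2 := by positivity
    rcases lt_or_ge ‖z.1 - z'.1‖ δ with h1 | h1
    · refine le_trans ?_ (hC z hz z' hz' h1)
      have h2 : C ≤ C' := by rw [hC']; exact le_max_left _ _
      nlinarith
    · have h2 : M * (2 * R) / δ ≤ C' := by rw [hC']; exact le_max_right _ _
      have h3 : |⟪z.1 - z'.1, B (z.2 - z'.2)⟫| ≤ ‖z.1 - z'.1‖ * ‖B (z.2 - z'.2)‖ :=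
        abs_real_inner_le_norm _ _
      have h4 : ‖z.2 - z'.2‖ ≤ 2 * R := by
        refine (norm_sub_le _ _).trans ?_
        linarith [hR z hz, hR z' hz']
      have h5 : ‖B (z.2 - z'.2)‖ ≤ M * (2 * R) :=
        (hM _).trans (mul_le_mul_of_nonneg_left h4 hM0)
      have h6 : ‖z.1 - z'.1‖ * ‖B (z.2 - z'.2)‖ ≤ ‖z.1 - z'.1‖ * (M * (2 * R)) :=
        mul_le_mul_of_nonneg_left h5 (norm_nonneg _)
      have h7 : ‖z.1 - z'.1‖ * (M * (2 * R)) ≤ (M * (2 * R) / δ) * ‖z.1 - z'.1‖ ^ 2 := by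
        have h8 : ‖z.1 - z'.1‖ * δ ≤ ‖z.1 - z'.1‖ ^ 2 := by
          rw [pow_two]
          exact mul_le_mul_of_nonneg_left h1 (norm_nonneg _)
        have h9 : (0 : ℝ) ≤ M * (2 * R) / δ := by positivity
        calc ‖z.1 - z'.1‖ * (M * (2 * R)) = (M * (2 * R) / δ) * (‖z.1 - z'.1‖ * δ) := by
              field_simp
          _ ≤ _ := mul_le_mul_of_nonneg_left h8 h9
      have h10 : (M * (2 * R) / δ) * ‖z.1 - z'.1‖ ^ 2 ≤ C' * ‖z.1 - z'.1‖ ^ 2 :=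
        mul_le_mul_of_nonneg_right h2 hn
      have h11 := (abs_le.1 h3).1
      linarith
  obtain ⟨N, hNd⟩ : ∃ N : ℝ, N = ‖(B.symm : E n →L[ℝ] E n)‖ + 1 := ⟨_, rfl⟩
  have hN0 : 0 < N := by rw [hNd]; positivity
  have hb : ∀ p, N⁻¹ * ‖p‖ ≤ ‖B p‖ := by
    intro p
    have h1 : ‖p‖ ≤ ‖(B.symm : E n →L[ℝ] E n)‖ * ‖B p‖ := by
      have := (B.symm : E n →L[ℝ] E n).le_opNorm (B p)
      simpa using this
    rw [inv_mul_le_iff₀ hN0, hNd]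
    nlinarith [norm_nonneg (B p)]
  obtain ⟨t, htd⟩ : ∃ t : ℝ, t = 1 / (4 * (|C'| + 1)) := ⟨_, rfl⟩
  have ht : 0 < t := by rw [htd]; positivity
  have htC : 4 * t * C' ≤ 1 := by
    rw [htd]
    have h1 : C' ≤ |C'| + 1 := by linarith [le_abs_self C']
    have h2 : 0 < |C'| + 1 := by positivity
    rw [show 4 * (1 / (4 * (|C'| + 1))) * C' = C' / (|C'| + 1) by field_simp, div_le_one h2]
    exact h1
  refine main hΛ (fun p => t • B p) (B.contDiff.const_smul t) (fun p v w => ?_)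
    (c := min (1 / 2) (t * N⁻¹)) (lt_min (by norm_num) (by positivity)) fun z hz z' hz' => ?_
  · have h1 : HasFDerivAt (fun p : E n => t • B p) (t • (B : E n →L[ℝ] E n)) p :=
      (B : E n →L[ℝ] E n).hasFDerivAt.const_smul t
    rw [h1.fderiv]
    change ⟪t • B v, w⟫ = ⟪v, t • B w⟫
    rw [inner_smul_left, inner_smul_right, hB]
    rfl
  · have h1 := lower (hglob z hz z' hz') ht htC (inv_pos.2 hN0) (hb _)
    have h2 : z.1 + t • B z.2 - (z'.1 + t • B z'.2) = z.1 - z'.1 + t • B (z.2 - z'.2) := by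
      rw [map_sub, smul_sub]
      abel
    rw [h2]
    exact h1

end Pool.Agent.Y522.ML
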