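import Mathlib

/-!
# Lagrangian submanifolds of the cotangent bundle of the torus which are transverse to a Lagrangian
foliation
-/

set_option autoImplicit false

open Set Filter Topology Metric Function
open scoped ContDiff RealInnerProductSpace

noncomputable section

namespace Pool.Agent.Y522.ML

/-- Euclidean space -/
abbrev E (n : ℕ) := EuclideanSpace ℝ (Fin n)

variable {n : ℕ}

/-- integer vectors -/
def latt (k : Fin n → ℤ) : E n := WithLp.toLp 2 (fun i => (k i : ℝ))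

/-- the symplectic form -/
def om (a b : E n × E n) : ℝ := ⟪a.2, b.1⟫ - ⟪b.2, a.1⟫

/-- lifts of closed Lagrangian submanifolds of `T*T^n` -/
structure LagT (n : ℕ) (Λ : Set (E n × E n)) : Prop where
  closed : IsClosed Λ
  nonempty : Λ.Nonempty
  per : ∀ z ∈ Λ, ∀ k : Fin n → ℤ, (z.1 + latt k, z.2) ∈ Λ
  bdd : ∃ R : ℝ, ∀ z ∈ Λ, ‖z.2‖ ≤ R
  par : ∀ z ∈ Λ, ∃ F : E n → E n × E n, ContDiff ℝ ∞ F ∧ F 0 = z ∧ Injective F ∧
    (∀ V : Set (E n), IsOpen V → ∃ U : Set (E n × E n), IsOpen U ∧ F '' V = Λ ∩ U) ∧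
    (∀ s v, fderiv ℝ F s v = 0 → v = 0) ∧
    ∀ s v w, om (fderiv ℝ F s v) (fderiv ℝ F s w) = 0

/-- lower bounds for derivatives -/
theorem fderiv_lower {F : E n → E n × E n} {G : E n → E n} (hF : ContDiff ℝ ∞ F)
    (hG : ContDiff ℝ ∞ G) {c : ℝ} (h : ∀ s s', c * ‖F s - F s'‖ ≤ ‖G s - G s'‖) (s v : E n) :
    c * ‖fderiv ℝ F s v‖ ≤ ‖fderiv ℝ G s v‖ := by
  have h1 := ((hF.differentiable (by simp)).differentiableAt (x := s)).hasFDerivAt.lim_real v
  have h2 := ((hG.differentiable (by simp)).differentiableAt (x := s)).hasFDerivAt.lim_real v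
  refine le_of_tendsto_of_tendsto' (h1.norm.const_mul c) h2.norm fun r => ?_
  rw [norm_smul, norm_smul]
  have h3 := mul_le_mul_of_nonneg_left (h (s + r⁻¹ • v) s) (norm_nonneg r)
  calc c * (‖r‖ * ‖F (s + r⁻¹ • v) - F s‖) = ‖r‖ * (c * ‖F (s + r⁻¹ • v) - F s‖) := by ring
    _ ≤ _ := h3

/-- a closed Lagrangian submanifold which meets the leaves `q + h(p) = const` transversally and at
most once, with `h` a gradient, is the image of the zero section -/
theorem main {Λ : Set (E n × E n)} (hΛ : LagT n Λ) (h : E n → E n) (hh : ContDiff ℝ ∞ h)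
    (hs : ∀ p v w, ⟪fderiv ℝ h p v, w⟫ = ⟪v, fderiv ℝ h p w⟫) {c : ℝ} (hc : 0 < c)
    (hA : ∀ z ∈ Λ, ∀ z' ∈ Λ, c * ‖z - z'‖ ≤ ‖(z.1 + h z.2) - (z'.1 + h z'.2)‖) :
    ∃ ψ : E n × E n ≃ E n × E n, ContDiff ℝ ∞ ψ ∧ ContDiff ℝ ∞ ψ.symm ∧
      (∀ z k, ψ (z.1 + latt k, z.2) = ((ψ z).1 + latt k, (ψ z).2)) ∧
      (∀ z a b, om (fderiv ℝ ψ z a) (fderiv ℝ ψ z b) = om a b) ∧ ψ '' {z | z.2 = 0} = Λ := by
  classical
  obtain ⟨A, hAd⟩ : ∃ A : E n × E n → E n, ∀ z, A z = z.1 + h z.2 := ⟨_, fun _ => rfl⟩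
  have hAs : ContDiff ℝ ∞ A := by
    have : A = fun z => z.1 + h z.2 := funext hAd
    rw [this]
    exact contDiff_fst.add (hh.comp contDiff_snd)
  have hA' : ∀ z ∈ Λ, ∀ z' ∈ Λ, c * ‖z - z'‖ ≤ ‖A z - A z'‖ := by
    intro z hz z' hz'
    rw [hAd, hAd]
    exact hA z hz z' hz'
  have huniq : ∀ z ∈ Λ, ∀ z' ∈ Λ, A z = A z' → z = z' := by
    intro z hz z' hz' he
    have h1 := hA' z hz z' hz'
    rw [he, sub_self, norm_zero] at h1
    have h2 : ‖z - z'‖ ≤ 0 := by
      by_contra hcon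
      push Not at hcon
      have := mul_pos hc hcon
      linarith
    exact sub_eq_zero.1 (norm_le_zero_iff.1 h2)
  -- local inverses
  have hloc : ∀ z ∈ Λ, ∃ (F : E n → E n × E n) (I : E n → E n), ContDiff ℝ ∞ F ∧
      ContDiffAt ℝ ∞ I (A z) ∧ (∀ s, F s ∈ Λ) ∧ F (I (A z)) = z ∧
      (∀ᶠ x in 𝓝 (A z), A (F (I x)) = x) ∧
      ∀ s v w, om (fderiv ℝ F s v) (fderiv ℝ F s w) = 0 := by
    intro z hz
    obtain ⟨F, hF, hF0, -, hU, himm, hom⟩ := hΛ.par z hz
    have hFΛ : ∀ s, F s ∈ Λ := by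
      intro s
      obtain ⟨U, -, hU'⟩ := hU univ isOpen_univ
      have : F s ∈ F '' univ := mem_image_of_mem _ (mem_univ s)
      rw [hU'] at this
      exact this.1
    obtain ⟨G, hGd⟩ : ∃ G : E n → E n, G = fun s => A (F s) := ⟨_, rfl⟩
    have hG : ContDiff ℝ ∞ G := by
      rw [hGd]
      exact hAs.comp hF
    have hlow := fderiv_lower hF hG (c := c) (fun s s' => by
      rw [hGd]
      exact hA' _ (hFΛ s) _ (hFΛ s'))
    have hinj : Injective (fderiv ℝ G 0 : E n →ₗ[ℝ] E n) := by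
      rw [← LinearMap.ker_eq_bot, LinearMap.ker_eq_bot']
      intro v hv
      have hv' : fderiv ℝ G 0 v = 0 := hv
      have h1 := hlow 0 v
      rw [hv', norm_zero] at h1
      have h2 : ‖fderiv ℝ F 0 v‖ ≤ 0 := by
        by_contra hcon
        push Not at hcon
        have := mul_pos hc hcon
        linarith
      exact himm 0 v (norm_le_zero_iff.1 h2)
    let e : E n ≃L[ℝ] E n := (LinearEquiv.ofInjectiveEndo _ hinj).toContinuousLinearEquiv
    have he : HasFDerivAt G (e : E n →L[ℝ] E n) 0 := by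
      have h1 := ((hG.differentiable (by simp)).differentiableAt (x := (0 : E n))).hasFDerivAt
      have h2 : (e : E n →L[ℝ] E n) = fderiv ℝ G 0 := by
        ext1 v
        rfl
      rw [h2]
      exact h1
    have hGa : ContDiffAt ℝ ∞ G 0 := hG.contDiffAt
    have hn : (∞ : WithTop ℕ∞) ≠ 0 := by simp
    have hG0 : G 0 = A z := by rw [hGd]; simp only [hF0]
    refine ⟨F, hGa.localInverse he hn, hF, ?_, hFΛ, ?_, ?_, hom⟩
    · rw [← hG0]
      exact hGa.to_localInverse he hn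
    · rw [← hG0, hGa.localInverse_apply_image he hn, hF0]
    · rw [← hG0]
      have h3 := (hGa.hasStrictFDerivAt' he hn).eventually_right_inverse
      filter_upwards [h3] with x hx
      have h4 : G (hGa.localInverse he hn x) = x := hx
      exact (congrFun hGd _).symm.trans h4
  -- surjectivity
  have hsurj : A '' Λ = univ := by
    refine IsClopen.eq_univ ⟨?_, ?_⟩ (hΛ.nonempty.image A)
    · rw [← isSeqClosed_iff_isClosed]
      intro x y hx hxy
      obtain ⟨R, hR⟩ := hΛ.bdd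
      choose z hz hzx using hx
      obtain ⟨M, hM⟩ := ((isCompact_closedBall (0 : E n) R).image hh.continuous).isBounded.exists_norm_le
      obtain ⟨N, hN⟩ := (Metric.isBounded_range_of_tendsto x hxy).exists_norm_le
      have hb : ∀ i, z i ∈ closedBall (0 : E n × E n) (max (N + M) R) := by
        intro i
        rw [mem_closedBall_zero_iff, Prod.norm_def]
        refine max_le_max ?_ (hR _ (hz i))
        have h1 : (z i).1 = x i - h (z i).2 := by
          rw [← hzx i, hAd]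
          abel
        rw [h1]
        refine (norm_sub_le _ _).trans (add_le_add (hN _ (mem_range_self i)) (hM _ ⟨_, ?_, rfl⟩))
        rw [mem_closedBall_zero_iff]
        exact hR _ (hz i)
      obtain ⟨w, -, φ, hφ, hw⟩ := (isCompact_closedBall (0 : E n × E n) (max (N + M) R)).tendsto_subseq hb
      have hwΛ : w ∈ Λ := hΛ.closed.mem_of_tendsto hw (Eventually.of_forall fun i => hz _)
      refine ⟨w, hwΛ, ?_⟩
      have h1 : Tendsto (fun i => A (z (φ i))) atTop (𝓝 (A w)) :=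
        (hAs.continuous.tendsto w).comp hw
      have h2 : Tendsto (fun i => A (z (φ i))) atTop (𝓝 y) := by
        have h3 : (fun i => A (z (φ i))) = fun i => x (φ i) := funext fun i => hzx _
        rw [h3]
        exact hxy.comp hφ.tendsto_atTop
      exact tendsto_nhds_unique h1 h2
    · rw [isOpen_iff_mem_nhds]
      rintro _ ⟨z, hz, rfl⟩
      obtain ⟨F, I, -, -, hFΛ, -, hr, -⟩ := hloc z hz
      filter_upwards [hr] with x hx
      exact ⟨F (I x), hFΛ _, hx⟩
  have hex : ∀ x, ∃ z, z ∈ Λ ∧ A z = x := by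
    intro x
    have : x ∈ A '' Λ := by rw [hsurj]; trivial
    obtain ⟨z, hz, hzx⟩ := this
    exact ⟨z, hz, hzx⟩
  choose B hBΛ hBA using hex
  obtain ⟨u, hu⟩ : ∃ u : E n → E n, ∀ x, u x = (B x).2 := ⟨_, fun _ => rfl⟩
  have hB1 : ∀ x, (B x).1 = x - h (u x) := by
    intro x
    have := hBA x
    rw [hAd] at this
    rw [hu, eq_sub_iff_add_eq]
    exact this
  have hBe : ∀ x, B x = (x - h (u x), u x) := fun x => Prod.ext (hB1 x) (hu x).symm
  -- smoothness and the Lagrangian condition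
  have hBloc : ∀ x, ContDiffAt ℝ ∞ B x ∧ ∀ v w, om (fderiv ℝ B x v) (fderiv ℝ B x w) = 0 := by
    intro x
    obtain ⟨F, I, hF, hI, hFΛ, hFI, hr, hom⟩ := hloc (B x) (hBΛ x)
    rw [hBA] at hI hr hFI
    have he : B =ᶠ[𝓝 x] fun y => F (I y) := by
      filter_upwards [hr] with y hy
      exact huniq _ (hBΛ y) _ (hFΛ _) ((hBA y).trans hy.symm)
    have hc : ContDiffAt ℝ ∞ (fun y => F (I y)) x := hF.contDiffAt.comp x hI
    refine ⟨hc.congr_of_eventuallyEq he, fun v w => ?_⟩
    have hd : fderiv ℝ B x = (fderiv ℝ F (I x)).comp (fderiv ℝ I x) := by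
      rw [he.fderiv_eq]
      exact fderiv_comp x ((hF.differentiable (by simp)).differentiableAt)
        (hI.differentiableAt (by simp))
    rw [hd]
    exact hom _ _ _
  have hBs : ContDiff ℝ ∞ B := contDiff_iff_contDiffAt.2 fun x => (hBloc x).1
  have hus : ContDiff ℝ ∞ u := by
    have : u = fun x => (B x).2 := funext hu
    rw [this]
    exact contDiff_snd.comp hBs
  have hud : ∀ x, HasFDerivAt u (fderiv ℝ u x) x := fun x =>
    ((hus.differentiable (by simp)).differentiableAt).hasFDerivAt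
  have hhd : ∀ x, HasFDerivAt h (fderiv ℝ h x) x := fun x =>
    ((hh.differentiable (by simp)).differentiableAt).hasFDerivAt
  have husym : ∀ x v w, ⟪fderiv ℝ u x v, w⟫ = ⟪fderiv ℝ u x w, v⟫ := by
    intro x v w
    have hBd : HasFDerivAt B (((ContinuousLinearMap.id ℝ (E n)) -
        (fderiv ℝ h (u x)).comp (fderiv ℝ u x)).prod (fderiv ℝ u x)) x := by
      have h1 : B = fun x => (x - h (u x), u x) := funext hBe
      rw [h1]
      exact ((hasFDerivAt_id x).sub ((hhd (u x)).comp x (hud x))).prodMk (hud x)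
    have h2 := (hBloc x).2 v w
    rw [hBd.fderiv] at h2
    simp only [om, ContinuousLinearMap.prod_apply, sub_apply,
      ContinuousLinearMap.id_apply, ContinuousLinearMap.comp_apply, inner_sub_right] at h2
    have h3 := hs (u x) (fderiv ℝ u x v) (fderiv ℝ u x w)
    have h4 := real_inner_comm (fderiv ℝ u x w) (fderiv ℝ h (u x) (fderiv ℝ u x v))
    linarith
  have huper : ∀ x (k : Fin n → ℤ), u (x + latt k) = u x := by
    intro x k
    have h1 : A ((B x).1 + latt k, (B x).2) = A (B (x + latt k)) := by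
      rw [hBA, hAd]
      simp only
      rw [hB1, ← hu]
      abel
    have h2 := huniq _ (hΛ.per _ (hBΛ x) k) _ (hBΛ _) h1
    rw [hu, hu, ← h2]
  -- the symplectic diffeomorphism
  let ψ : E n × E n ≃ E n × E n :=
    { toFun := fun z => (z.1 - h (z.2 + u z.1), z.2 + u z.1)
      invFun := fun y => (y.1 + h y.2, y.2 - u (y.1 + h y.2))
      left_inv := fun z => by simp
      right_inv := fun y => by simp }
  have hψ : ∀ z, ψ z = (z.1 - h (z.2 + u z.1), z.2 + u z.1) := fun _ => rfl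
  refine ⟨ψ, ?_, ?_, ?_, ?_, ?_⟩
  · have h1 : ContDiff ℝ ∞ (fun z : E n × E n => z.2 + u z.1) :=
      contDiff_snd.add (hus.comp contDiff_fst)
    exact (contDiff_fst.sub (hh.comp h1)).prodMk h1
  · have h1 : ContDiff ℝ ∞ (fun z : E n × E n => z.1 + h z.2) :=
      contDiff_fst.add (hh.comp contDiff_snd)
    exact h1.prodMk (contDiff_snd.sub (hus.comp h1))
  · intro z k
    rw [hψ, hψ]
    simp only [huper]
    refine Prod.ext ?_ rfl
    simp only
    abel
  · intro z a b
    have h1 : HasFDerivAt (fun z : E n × E n => z.2 + u z.1)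
        (ContinuousLinearMap.snd ℝ (E n) (E n) +
          (fderiv ℝ u z.1).comp (ContinuousLinearMap.fst ℝ (E n) (E n))) z :=
      hasFDerivAt_snd.add ((hud z.1).comp z hasFDerivAt_fst)
    have h2 : HasFDerivAt (fun z : E n × E n => (z.1 - h (z.2 + u z.1), z.2 + u z.1))
        ((ContinuousLinearMap.fst ℝ (E n) (E n) - (fderiv ℝ h (z.2 + u z.1)).comp
          (ContinuousLinearMap.snd ℝ (E n) (E n) +
            (fderiv ℝ u z.1).comp (ContinuousLinearMap.fst ℝ (E n) (E n)))).prod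
          (ContinuousLinearMap.snd ℝ (E n) (E n) +
            (fderiv ℝ u z.1).comp (ContinuousLinearMap.fst ℝ (E n) (E n)))) z :=
      (hasFDerivAt_fst.sub ((hhd _).comp z h1)).prodMk h1
    have h3 : fderiv ℝ ψ z = _ := h2.fderiv
    rw [h3]
    simp only [om, ContinuousLinearMap.prod_apply, sub_apply,
      add_apply, ContinuousLinearMap.comp_apply,
      ContinuousLinearMap.coe_fst', ContinuousLinearMap.coe_snd']
    obtain ⟨x, hx⟩ : ∃ x, x = a.2 + fderiv ℝ u z.1 a.1 := ⟨_, rfl⟩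
    obtain ⟨y, hy⟩ : ∃ y, y = b.2 + fderiv ℝ u z.1 b.1 := ⟨_, rfl⟩
    rw [← hx, ← hy, inner_sub_right, inner_sub_right]
    have h4 := hs (z.2 + u z.1) x y
    have h5 := real_inner_comm y (fderiv ℝ h (z.2 + u z.1) x)
    have h6 : ⟪x, b.1⟫ = ⟪a.2, b.1⟫ + ⟪fderiv ℝ u z.1 a.1, b.1⟫ := by rw [hx, inner_add_left]
    have h7 : ⟪y, a.1⟫ = ⟪b.2, a.1⟫ + ⟪fderiv ℝ u z.1 b.1, a.1⟫ := by rw [hy, inner_add_left]
    have h8 := husym z.1 a.1 b.1
    linarith
  · ext z
    constructor
    · rintro ⟨y, hy, rfl⟩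
      have hy' : y.2 = 0 := hy
      rw [hψ, hy', zero_add, ← hBe]
      exact hBΛ _
    · intro hz
      refine ⟨(A z, 0), rfl, ?_⟩
      rw [hψ]
      simp only [zero_add]
      rw [← hBe]
      exact huniq _ (hBΛ _) _ hz (hBA _)

end Pool.Agent.Y522.ML
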