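import Pool.Agent.Y522.ML.Main

/-!
# Small perturbations of the identity, periodic functions
-/

set_option autoImplicit false

open Set Filter Topology Metric Function
open scoped ContDiff RealInnerProductSpace

noncomputable section

namespace Pool.Agent.Y522.ML

variable {n : ℕ}

/-- lower bounds for derivatives -/
theorem fderiv_lower' {V W : Type} [NormedAddCommGroup V] [NormedSpace ℝ V]
    [NormedAddCommGroup W] [NormedSpace ℝ W] {G : V → W} (s : V) (hG : DifferentiableAt ℝ G s)
    {c : ℝ} (h : ∀ s s', c * ‖s - s'‖ ≤ ‖G s - G s'‖) (v : V) : c * ‖v‖ ≤ ‖fderiv ℝ G s v‖ := by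
  have h2 := hG.hasFDerivAt.lim_real v
  have h1 := (hasFDerivAt_id (𝕜 := ℝ) s).lim_real v
  refine le_of_tendsto_of_tendsto' (h1.norm.const_mul c) h2.norm fun r => ?_
  rw [norm_smul, norm_smul]
  have h3 := mul_le_mul_of_nonneg_left (h (s + r⁻¹ • v) s) (norm_nonneg r)
  calc c * (‖r‖ * ‖id (s + r⁻¹ • v) - id s‖) = ‖r‖ * (c * ‖s + r⁻¹ • v - s‖) := by
        simp only [id]
        ring
    _ ≤ _ := h3

/-- small perturbations of the identity are diffeomorphisms -/
theorem small {V : Type} [NormedAddCommGroup V] [NormedSpace ℝ V] [FiniteDimensional ℝ V]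
    (g : V → V) (hg : ContDiff ℝ ∞ g) (hb : ∀ w w', ‖g w - g w'‖ ≤ 1 / 2 * ‖w - w'‖) :
    ∃ e : V ≃ V, (∀ w, e w = w + g w) ∧ ContDiff ℝ ∞ e ∧ ContDiff ℝ ∞ e.symm := by
  haveI : CompleteSpace V := FiniteDimensional.complete ℝ V
  obtain ⟨G, hGd⟩ : ∃ G : V → V, ∀ w, G w = w + g w := ⟨_, fun _ => rfl⟩
  have hGf : G = fun w => w + g w := funext hGd
  have hG : ContDiff ℝ ∞ G := by
    rw [hGf]
    exact contDiff_id.add hg
  have hlow : ∀ w w', 1 / 2 * ‖w - w'‖ ≤ ‖G w - G w'‖ := by
    intro w w'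
    have h1 : w - w' = (G w - G w') - (g w - g w') := by
      rw [hGd, hGd]
      abel
    have h2 : ‖w - w'‖ ≤ ‖G w - G w'‖ + ‖g w - g w'‖ := by
      conv_lhs => rw [h1]
      exact norm_sub_le _ _
    linarith [hb w w']
  have hinj : Injective G := by
    intro w w' he
    have h1 := hlow w w'
    rw [he, sub_self, norm_zero] at h1
    have h2 : ‖w - w'‖ ≤ 0 := by linarith
    exact sub_eq_zero.1 (norm_le_zero_iff.1 h2)
  have hn : (∞ : WithTop ℕ∞) ≠ 0 := by simp
  have hloc : ∀ w, ∃ I : V → V, ContDiffAt ℝ ∞ I (G w) ∧ ∀ᶠ y in 𝓝 (G w), G (I y) = y := by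
    intro w
    have hd : DifferentiableAt ℝ G w := (hG.differentiable (by simp)).differentiableAt
    have hi : Injective (fderiv ℝ G w : V →ₗ[ℝ] V) := by
      rw [← LinearMap.ker_eq_bot, LinearMap.ker_eq_bot']
      intro v hv
      have hv' : fderiv ℝ G w v = 0 := hv
      have h1 := fderiv_lower' w hd hlow v
      rw [hv', norm_zero] at h1
      exact norm_le_zero_iff.1 (by linarith)
    let e : V ≃L[ℝ] V := (LinearEquiv.ofInjectiveEndo _ hi).toContinuousLinearEquiv
    have he : HasFDerivAt G (e : V →L[ℝ] V) w := by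
      have h2 : (e : V →L[ℝ] V) = fderiv ℝ G w := by
        ext1 v
        rfl
      rw [h2]
      exact hd.hasFDerivAt
    have hGa : ContDiffAt ℝ ∞ G w := hG.contDiffAt
    exact ⟨hGa.localInverse he hn, hGa.to_localInverse he hn,
      (hGa.hasStrictFDerivAt' he hn).eventually_right_inverse⟩
  have hsurj : Surjective G := by
    rw [← range_eq_univ]
    refine IsClopen.eq_univ ⟨?_, ?_⟩ (range_nonempty G)
    · have h1 : AntilipschitzWith 2 G := by
        refine AntilipschitzWith.of_le_mul_dist fun x y => ?_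
        rw [dist_eq_norm, dist_eq_norm]
        have := hlow x y
        simp only [NNReal.coe_ofNat]
        linarith
      have h2 : LipschitzWith 2 G := by
        refine LipschitzWith.of_dist_le_mul fun x y => ?_
        rw [dist_eq_norm, dist_eq_norm, hGd, hGd]
        have h3 : x + g x - (y + g y) = (x - y) + (g x - g y) := by abel
        rw [h3]
        have h4 := norm_add_le (x - y) (g x - g y)
        have h5 := hb x y
        have h6 := norm_nonneg (x - y)
        simp only [NNReal.coe_ofNat]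
        linarith
      exact h1.isClosed_range h2.uniformContinuous
    · rw [isOpen_iff_mem_nhds]
      rintro _ ⟨w, rfl⟩
      obtain ⟨I, -, hI⟩ := hloc w
      filter_upwards [hI] with y hy
      exact ⟨I y, hy⟩
  refine ⟨Equiv.ofBijective G ⟨hinj, hsurj⟩, hGd, hG, ?_⟩
  rw [contDiff_iff_contDiffAt]
  intro y
  obtain ⟨w, rfl⟩ := hsurj y
  obtain ⟨I, hI, hr⟩ := hloc w
  refine hI.congr_of_eventuallyEq ?_
  filter_upwards [hr] with y hy
  apply hinj
  rw [hy]
  exact (Equiv.ofBijective G ⟨hinj, hsurj⟩).apply_symm_apply y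

/-- continuous functions which are periodic in `q` and vanish for large `p` are bounded -/
theorem bddper {W : Type} [NormedAddCommGroup W] (f : E n × E n → W) (hf : Continuous f)
    (hp : ∀ w (k : Fin n → ℤ), f (w.1 + latt k, w.2) = f w) (R : ℝ)
    (h0 : ∀ w, R < ‖w.2‖ → f w = 0) : ∃ M : ℝ, 0 ≤ M ∧ ∀ w, ‖f w‖ ≤ M := by
  have hc : IsCompact (((fun x : Fin n → ℝ => (WithLp.toLp 2 x : E n)) ''
      (Set.pi univ fun _ => Icc (0 : ℝ) 1)) ×ˢ closedBall (0 : E n) R) := by
    refine IsCompact.prod ?_ (isCompact_closedBall _ _)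
    refine (isCompact_univ_pi fun _ => isCompact_Icc).image ?_
    exact PiLp.continuous_toLp 2 _
  obtain ⟨M, hM⟩ := (hc.image hf).isBounded.exists_norm_le
  refine ⟨max M 0, le_max_right _ _, fun w => ?_⟩
  rcases lt_or_ge R ‖w.2‖ with h1 | h1
  · rw [h0 w h1, norm_zero]
    exact le_max_right _ _
  · refine le_trans ?_ (le_max_left _ _)
    rw [← hp w (fun i => -⌊w.1 i⌋)]
    refine hM _ ⟨_, ⟨⟨fun i => Int.fract (w.1 i), ?_, ?_⟩, ?_⟩, rfl⟩
    · intro i _
      exact ⟨Int.fract_nonneg _, (Int.fract_lt_one _).le⟩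
    · ext i
      show Int.fract (w.1 i) = w.1 i + ((-⌊w.1 i⌋ : ℤ) : ℝ)
      rw [Int.cast_neg, ← sub_eq_add_neg, Int.self_sub_floor]
    · rw [mem_closedBall_zero_iff]
      exact h1

end Pool.Agent.Y522.ML
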