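import Pool.Agent.Y522.ML.Gen

/-!
# Lagrangian submanifolds of the cotangent bundle of the torus with a variable one-sided condition
-/

set_option autoImplicit false

open Set Filter Topology Metric Function
open scoped ContDiff RealInnerProductSpace

noncomputable section

namespace Pool.Agent.Y522.ML

variable {n : ℕ}

theorem om_nondeg {a : E n × E n} (h : ∀ b, om a b = 0) : a = 0 := by
  have h1 := h (a.2, -a.1)
  simp only [om, inner_neg_left, sub_neg_eq_add] at h1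
  have h2 : 0 ≤ ⟪a.2, a.2⟫ := real_inner_self_nonneg
  have h3 : 0 ≤ ⟪a.1, a.1⟫ := real_inner_self_nonneg
  refine Prod.ext ?_ ?_
  · exact (inner_self_eq_zero (𝕜 := ℝ)).1 (le_antisymm (by linarith) h3)
  · exact (inner_self_eq_zero (𝕜 := ℝ)).1 (le_antisymm (by linarith) h2)

/-- images of Lagrangian submanifolds -/
theorem push {Λ : Set (E n × E n)} (hΛ : LagT n Λ) (Φ : E n × E n ≃ E n × E n)
    (h1 : ContDiff ℝ ∞ Φ) (h2 : ContDiff ℝ ∞ Φ.symm)
    (h3 : ∀ z (k : Fin n → ℤ), Φ (z.1 + latt k, z.2) = ((Φ z).1 + latt k, (Φ z).2))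
    (h4 : ∀ z a b, om (fderiv ℝ Φ z a) (fderiv ℝ Φ z b) = om a b)
    (h5 : ∃ R : ℝ, ∀ z ∈ Λ, ‖(Φ z).2‖ ≤ R) : LagT n (Φ '' Λ) := by
  let H : E n × E n ≃ₜ E n × E n := ⟨Φ, h1.continuous, h2.continuous⟩
  refine ⟨H.isClosedMap _ hΛ.closed, hΛ.nonempty.image _, ?_, ?_, ?_⟩
  · rintro _ ⟨z, hz, rfl⟩ k
    exact ⟨_, hΛ.per z hz k, h3 z k⟩
  · obtain ⟨R, hR⟩ := h5
    refine ⟨R, ?_⟩
    rintro _ ⟨z, hz, rfl⟩
    exact hR z hz
  · rintro _ ⟨z, hz, rfl⟩
    obtain ⟨F, f1, f2, f3, f4, f5, f6⟩ := hΛ.par z hz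
    have hd : ∀ s v, fderiv ℝ (fun s => Φ (F s)) s v = fderiv ℝ Φ (F s) (fderiv ℝ F s v) := by
      intro s v
      have g1 : HasFDerivAt Φ (fderiv ℝ Φ (F s)) (F s) :=
        (h1.differentiable (by simp)).differentiableAt.hasFDerivAt
      have g2 : HasFDerivAt F (fderiv ℝ F s) s :=
        (f1.differentiable (by simp)).differentiableAt.hasFDerivAt
      have g3 : fderiv ℝ (fun s => Φ (F s)) s = _ := (g1.comp s g2).fderiv
      rw [g3]
      rfl
    refine ⟨fun s => Φ (F s), h1.comp f1, congrArg Φ f2, Φ.injective.comp f3, fun V hV => ?_,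
      fun s v hv => ?_, fun s v w => ?_⟩
    · obtain ⟨U, hU, hU'⟩ := f4 V hV
      refine ⟨Φ '' U, H.isOpenMap _ hU, ?_⟩
      rw [← image_image (g := Φ) (f := F), hU', image_inter Φ.injective]
    · rw [hd] at hv
      apply f5 s v
      apply om_nondeg
      intro b
      rw [← h4 (F s), hv]
      simp [om]
    · rw [hd, hd, h4]
      exact f6 s v w

theorem arith {X Y D d β t M L b C : ℝ} (ht : 0 < t) (hb : 0 < b) (hd : 0 ≤ d)
    (hX : 0 ≤ X) (hY0 : 0 ≤ Y) (hD : 0 ≤ D) (hβ : 0 ≤ β) (hC0 : 0 ≤ C) (hM : t * M ≤ 1 / 2)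
    (hC : 4 * t * C ≤ 1) (hL : 4 * t * (L * M) ≤ b)
    (h1 : Y ≤ X + (t * (L * (t * M * d)) + t * (M * X)))
    (h2 : 1 / 2 * D ^ 2 + t ^ 2 * β ^ 2 ≤ Y ^ 2) (h3 : b * d ≤ β + C * D) :
    t * b * d ≤ 8 * X := by
  have a1 : t * β ≤ Y := by
    refine le_of_sq_le_sq ?_ hY0
    nlinarith [sq_nonneg D]
  have a2 : D ≤ 2 * Y := by
    refine le_of_sq_le_sq ?_ (by positivity)
    nlinarith [sq_nonneg (t * β), sq_nonneg Y]
  have a3 : t * (b * d) ≤ t * (β + C * D) := mul_le_mul_of_nonneg_left h3 ht.le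
  have a4 : t * C * D ≤ t * C * (2 * Y) := mul_le_mul_of_nonneg_left a2 (by positivity)
  have a5 : t * C * (2 * Y) ≤ 1 / 2 * Y := by nlinarith
  have a6 : t * b * d ≤ 2 * Y := by nlinarith
  have a7 : t * (M * X) ≤ 1 / 2 * X := by nlinarith
  have a8 : 4 * t * (L * M) * (t * d) ≤ b * (t * d) :=
    mul_le_mul_of_nonneg_right hL (by positivity)
  nlinarith

/-- closed Lagrangian submanifolds of `T*T^n` with a variable one-sided condition are images of the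
zero section -/
theorem var {Λ : Set (E n × E n)} (hΛ : LagT n Λ) (B : E n → E n →L[ℝ] E n)
    (hBs : ContDiff ℝ ∞ B) (hBp : ∀ q (k : Fin n → ℤ), B (q + latt k) = B q)
    (hB : ∀ q v w, ⟪B q v, w⟫ = ⟪v, B q w⟫) {C b δ : ℝ} (hb : 0 < b) (hδ : 0 < δ)
    (hC : ∀ z ∈ Λ, ∀ z' ∈ Λ, ‖z.1 - z'.1‖ < δ →
      -C * ‖z.1 - z'.1‖ ^ 2 ≤ ⟪z.1 - z'.1, B z.1 (z.2 - z'.2)⟫ ∧
      b * ‖z.2 - z'.2‖ ≤ ‖B z.1 (z.2 - z'.2)‖ + C * ‖z.1 - z'.1‖) :
    ∃ ψ : E n × E n ≃ E n × E n, ContDiff ℝ ∞ ψ ∧ ContDiff ℝ ∞ ψ.symm ∧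
      (∀ z k, ψ (z.1 + latt k, z.2) = ((ψ z).1 + latt k, (ψ z).2)) ∧
      (∀ z a b, om (fderiv ℝ ψ z a) (fderiv ℝ ψ z b) = om a b) ∧ ψ '' {z | z.2 = 0} = Λ := by
  obtain ⟨R, hR⟩ := hΛ.bdd
  obtain ⟨z₀, hz₀⟩ := hΛ.nonempty
  have hR0 : 0 ≤ R := (norm_nonneg _).trans (hR _ hz₀)
  let χ : ContDiffBump (0 : E n) := ⟨R + 1, R + 2, by linarith, by linarith⟩
  have hχs : ContDiff ℝ ∞ (χ : E n → ℝ) := χ.contDiff
  have hχ1 : ∀ p, ‖p‖ ≤ R + 1 → χ p = 1 := fun p hp =>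
    χ.one_of_mem_closedBall (by rw [mem_closedBall_zero_iff]; exact hp)
  have hχ0 : ∀ p, R + 2 < ‖p‖ → χ p = 0 := fun p hp =>
    χ.zero_of_le_dist (by rw [dist_zero_right]; exact hp.le)
  -- bounds for `B`
  obtain ⟨M₀, hM₀, hBb⟩ := bddper (n := n) (fun w => χ w.2 • B w.1)
    ((hχs.continuous.comp continuous_snd).smul (hBs.continuous.comp continuous_fst))
    (fun w k => by simp only [hBp]) (R + 2)
    (fun w hw => by
      have h0 : χ w.2 = 0 := hχ0 _ hw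
      show χ w.2 • B w.1 = 0
      rw [h0]
      first
        | exact zero_smul ℝ (B w.1)
        | (refine ContinuousLinearMap.ext fun v => ?_
           rw [ContinuousLinearMap.smul_apply, zero_smul]
           rfl)
        | (ext v; simp))
  have hBb' : ∀ q, ‖B q‖ ≤ M₀ := by
    intro q
    have h1 := hBb (q, 0)
    simp only [hχ1 0 (by rw [norm_zero]; linarith), one_smul] at h1
    exact h1
  have hBDp : ∀ q (k : Fin n → ℤ), fderiv ℝ B (q + latt k) = fderiv ℝ B q := by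
    intro q k
    have h1 : (fun y => B (y + latt k)) = B := funext fun y => hBp y k
    have h2 := fderiv_comp_add_right (𝕜 := ℝ) (f := B) (x := q) (latt k)
    rw [h1] at h2
    exact h2.symm
  obtain ⟨L, hL, hBL⟩ := bddper (n := n) (fun w => χ w.2 • fderiv ℝ B w.1)
    ((hχs.continuous.comp continuous_snd).smul
      ((hBs.continuous_fderiv (by simp)).comp continuous_fst))
    (fun w k => by simp only [hBDp]) (R + 2)
    (fun w hw => by
      have h0 : χ w.2 = 0 := hχ0 _ hw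
      show χ w.2 • fderiv ℝ B w.1 = 0
      rw [h0]
      first
        | exact zero_smul ℝ (fderiv ℝ B w.1)
        | (refine ContinuousLinearMap.ext fun v => ?_
           refine ContinuousLinearMap.ext fun u => ?_
           rw [ContinuousLinearMap.smul_apply, ContinuousLinearMap.smul_apply, zero_smul]
           rfl)
        | (ext v u; simp))
  have hBL' : ∀ q q', ‖B q - B q'‖ ≤ L * ‖q - q'‖ := by
    intro q q'
    refine Convex.norm_image_sub_le_of_norm_fderiv_le (𝕜 := ℝ) (s := univ) (fun x _ =>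
      (hBs.differentiable (by simp)).differentiableAt) (fun x _ => ?_)
      convex_univ (mem_univ _) (mem_univ _)
    have h1 := hBL (x, 0)
    simp only [hχ1 0 (by rw [norm_zero]; linarith), one_smul] at h1
    exact h1
  -- the generating function
  obtain ⟨K, hKd⟩ : ∃ K : E n × E n → ℝ, K = fun w => 1 / 2 * (χ w.2 * ⟪B w.1 w.2, w.2⟫) := ⟨_, rfl⟩
  have hK : ContDiff ℝ ∞ K := by
    rw [hKd]
    exact contDiff_const.mul ((hχs.comp contDiff_snd).mul
      (((hBs.comp contDiff_fst).clm_apply contDiff_snd).inner ℝ contDiff_snd))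
  obtain ⟨k₁, k₂, M, hM, s1, s2, hk, p1, p2, -, b2, l1, l2⟩ := exists_grad K hK
    (fun w k => by rw [hKd]; simp only [hBp]) (R + 2)
    (fun w hw => by rw [hKd]; simp only [hχ0 _ hw, zero_mul, mul_zero])
  have hk2 : ∀ x p, ‖p‖ ≤ R → k₂ (x, p) = B x p := by
    intro x p hp
    refine ext_inner_right ℝ fun a => ?_
    have h1 : ⟪k₂ (x, p), a⟫ = fderiv ℝ K (x, p) (0, a) := by
      rw [hk]
      simp
    rw [h1]
    have h2 : HasDerivAt (fun s : ℝ => (x, p + s • a)) ((0 : E n), a) 0 := by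
      have := ((hasDerivAt_id (0 : ℝ)).smul_const a).const_add p
      simp only [one_smul] at this
      exact (hasDerivAt_const (0 : ℝ) x).prodMk this
    have h3 : HasFDerivAt K (fderiv ℝ K (x, p)) ((fun s : ℝ => (x, p + s • a)) 0) := by
      simp only [zero_smul, add_zero]
      exact (hK.differentiable (by simp)).differentiableAt.hasFDerivAt
    have h4 : HasDerivAt (fun s : ℝ => K (x, p + s • a)) (fderiv ℝ K (x, p) (0, a)) 0 :=
      h3.comp_hasDerivAt (0 : ℝ) h2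
    have h5 : HasDerivAt (fun s : ℝ => 1 / 2 * (⟪B x p, p⟫ + s * (2 * ⟪B x p, a⟫) +
        s ^ 2 * ⟪B x a, a⟫)) ⟪B x p, a⟫ 0 := by
      have g1 : HasDerivAt (fun s : ℝ => s * (2 * ⟪B x p, a⟫)) (2 * ⟪B x p, a⟫) 0 := by
        have := (hasDerivAt_id (0 : ℝ)).mul_const (2 * ⟪B x p, a⟫)
        rw [one_mul] at this
        exact this
      have g2 : HasDerivAt (fun s : ℝ => s ^ 2 * ⟪B x a, a⟫) 0 0 := by
        have := (hasDerivAt_pow 2 (0 : ℝ)).mul_const ⟪B x a, a⟫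
        simpa using this
      have g3 := (((hasDerivAt_const (0 : ℝ) ⟪B x p, p⟫).add g1).add g2).const_mul (1 / 2)
      refine g3.congr_deriv ?_
      ring
    refine h4.unique (h5.congr_of_eventuallyEq ?_)
    have h6 : ∀ᶠ s : ℝ in 𝓝 0, ‖p + s • a‖ < R + 1 := by
      have g1 : Continuous fun s : ℝ => ‖p + s • a‖ := by fun_prop
      refine (g1.continuousAt (x := 0)).eventually (gt_mem_nhds ?_)
      simp only [zero_smul, add_zero]
      linarith
    filter_upwards [h6] with s hs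
    rw [hKd]
    simp only
    rw [hχ1 _ hs.le, one_mul, map_add, map_smul, inner_add_left, inner_add_right, inner_add_right,
      inner_smul_left, inner_smul_left, inner_smul_right, inner_smul_right]
    have h7 : ⟪B x a, p⟫ = ⟪B x p, a⟫ := by
      rw [hB, real_inner_comm]
    simp only [RCLike.conj_to_real]
    rw [h7]
    ring
  -- the constants
  obtain ⟨C', hC'⟩ : ∃ C' : ℝ, C' = max C 0 + M₀ * (2 * R) / δ + b * (2 * R) / δ := ⟨_, rfl⟩
  have hc1 : 0 ≤ M₀ * (2 * R) / δ := by positivity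
  have hc2 : 0 ≤ b * (2 * R) / δ := by positivity
  have hc3 : C ≤ C' := by rw [hC']; linarith [le_max_left C 0]
  have hc4 : 0 ≤ C' := by rw [hC']; linarith [le_max_right C 0]
  have hc5 : M₀ * (2 * R) / δ ≤ C' := by rw [hC']; linarith [le_max_right C 0]
  have hc6 : b * (2 * R) / δ ≤ C' := by rw [hC']; linarith [le_max_right C 0]
  have hglob : ∀ z ∈ Λ, ∀ z' ∈ Λ,
      -C' * ‖z.1 - z'.1‖ ^ 2 ≤ ⟪z.1 - z'.1, B z.1 (z.2 - z'.2)⟫ ∧
      b * ‖z.2 - z'.2‖ ≤ ‖B z.1 (z.2 - z'.2)‖ + C' * ‖z.1 - z'.1‖ := by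
    intro z hz z' hz'
    have hn : 0 ≤ ‖z.1 - z'.1‖ ^ 2 := by positivity
    have hn' : 0 ≤ ‖z.1 - z'.1‖ := norm_nonneg _
    rcases lt_or_ge ‖z.1 - z'.1‖ δ with h1 | h1
    · obtain ⟨h2, h3⟩ := hC z hz z' hz' h1
      exact ⟨by nlinarith, by nlinarith⟩
    · have h4 : ‖z.2 - z'.2‖ ≤ 2 * R := by
        refine (norm_sub_le _ _).trans ?_
        linarith [hR z hz, hR z' hz']
      have hdiv : ∀ c : ℝ, 0 ≤ c → c * (2 * R) ≤ (c * (2 * R) / δ) * ‖z.1 - z'.1‖ := by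
        intro c hc
        have g1 : (c * (2 * R) / δ) * δ = c * (2 * R) := by field_simp
        rw [← g1]
        conv_rhs => rw [g1]
        exact mul_le_mul_of_nonneg_left h1 (by positivity)
      constructor
      · have h3 : |⟪z.1 - z'.1, B z.1 (z.2 - z'.2)⟫| ≤ ‖z.1 - z'.1‖ * ‖B z.1 (z.2 - z'.2)‖ :=
          abs_real_inner_le_norm _ _
        have h5 : ‖B z.1 (z.2 - z'.2)‖ ≤ M₀ * (2 * R) :=
          ((B z.1).le_opNorm _).trans (mul_le_mul (hBb' _) h4 (norm_nonneg _) hM₀)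
        have h6 : ‖z.1 - z'.1‖ * ‖B z.1 (z.2 - z'.2)‖ ≤ ‖z.1 - z'.1‖ * (M₀ * (2 * R)) :=
          mul_le_mul_of_nonneg_left h5 (norm_nonneg _)
        have h7 := mul_le_mul_of_nonneg_left (hdiv M₀ hM₀) hn'
        have h8 : (M₀ * (2 * R) / δ) * ‖z.1 - z'.1‖ ^ 2 ≤ C' * ‖z.1 - z'.1‖ ^ 2 :=
          mul_le_mul_of_nonneg_right hc5 hn
        have h9 := (abs_le.1 h3).1
        nlinarith
      · have h3 : b * ‖z.2 - z'.2‖ ≤ b * (2 * R) := mul_le_mul_of_nonneg_left h4 hb.le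
        have h5 := hdiv b hb.le
        have h6 : (b * (2 * R) / δ) * ‖z.1 - z'.1‖ ≤ C' * ‖z.1 - z'.1‖ :=
          mul_le_mul_of_nonneg_right hc6 hn'
        linarith [norm_nonneg (B z.1 (z.2 - z'.2))]
  obtain ⟨T, hT⟩ : ∃ T : ℝ, T = 2 * M + 4 * C' + 4 * (L * M) / b + 1 := ⟨_, rfl⟩
  have hLM : 0 ≤ 4 * (L * M) / b := by positivity
  have hT0 : 0 < T := by rw [hT]; positivity
  obtain ⟨t, htd⟩ : ∃ t : ℝ, t = 1 / T := ⟨_, rfl⟩
  have ht : 0 < t := by rw [htd]; positivity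
  have htT : t * T = 1 := by rw [htd]; field_simp
  have htM : t * M ≤ 1 / 2 := by
    have h1 : t * (2 * M) ≤ t * T := mul_le_mul_of_nonneg_left (by rw [hT]; linarith) ht.le
    linarith
  have htC : 4 * t * C' ≤ 1 := by
    have h1 : t * (4 * C') ≤ t * T := mul_le_mul_of_nonneg_left (by rw [hT]; linarith) ht.le
    linarith
  have htL : 4 * t * (L * M) ≤ b := by
    have h1 : t * (4 * (L * M) / b) ≤ t * T := mul_le_mul_of_nonneg_left (by rw [hT]; linarith) ht.le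
    rw [htT] at h1
    have h2 := mul_le_mul_of_nonneg_right h1 hb.le
    have h3 : t * (4 * (L * M) / b) * b = 4 * t * (L * M) := by field_simp
    linarith
  obtain ⟨Φ, P1, P2, P3, P4, P5⟩ := exists_gen K hK s1 s2 hk p1 p2 l1 l2 ht.le htM
  -- the estimate
  have hest : ∀ z ∈ Λ, ∀ z' ∈ Λ,
      t * b / (t * b + 16) * ‖Φ z - Φ z'‖ ≤ ‖(Φ z).1 - (Φ z').1‖ := by
    intro z hz z' hz'
    obtain ⟨w, w1, w2, w3⟩ := P5 z
    obtain ⟨w', w1', w2', w3'⟩ := P5 z'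
    obtain ⟨g1, g2⟩ := hglob z hz z' hz'
    have hw : k₂ w = B w.1 z.2 := by
      have := hk2 w.1 z.2 (hR z hz)
      rw [← w1] at this ⊢
      exact this
    have hw' : k₂ (w.1, w'.2) = B w.1 z'.2 := by
      rw [w1']
      exact hk2 w.1 z'.2 (hR z' hz')
    have hx : ‖w.1 - z.1‖ ≤ t * M := by
      rw [w2, add_sub_cancel_left, norm_smul, Real.norm_of_nonneg ht.le]
      exact mul_le_mul_of_nonneg_left (b2 w) ht.le
    have e1 : z.1 - z'.1 + t • B z.1 (z.2 - z'.2) = (w.1 - w'.1) -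
        (t • ((B w.1 - B z.1) (z.2 - z'.2)) + t • (k₂ (w.1, w'.2) - k₂ w')) := by
      have h1 : z.1 = w.1 - t • k₂ w := by rw [w2]; abel
      have h2 : z'.1 = w'.1 - t • k₂ w' := by rw [w2']; abel
      have h3 : (B w.1 - B z.1) (z.2 - z'.2) =
          (B w.1 z.2 - B w.1 z'.2) - B z.1 (z.2 - z'.2) := by
        rw [ContinuousLinearMap.sub_apply, map_sub (B w.1)]
      rw [h3, hw', smul_sub, smul_sub, smul_sub, ← hw]
      have h4 : z.1 - z'.1 = (w.1 - t • k₂ w) - (w'.1 - t • k₂ w') := by rw [← h1, ← h2]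
      rw [h4]
      abel
    have e2 : ‖z.1 - z'.1 + t • B z.1 (z.2 - z'.2)‖ ≤ ‖w.1 - w'.1‖ +
        (t * (L * (t * M * ‖z.2 - z'.2‖)) + t * (M * ‖w.1 - w'.1‖)) := by
      rw [e1]
      refine (norm_sub_le _ _).trans (add_le_add le_rfl ((norm_add_le _ _).trans
        (add_le_add ?_ ?_)))
      · rw [norm_smul, Real.norm_of_nonneg ht.le]
        refine mul_le_mul_of_nonneg_left ?_ ht.le
        refine ((B w.1 - B z.1).le_opNorm _).trans ?_
        have h1 : ‖B w.1 - B z.1‖ ≤ L * (t * M) :=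
          (hBL' _ _).trans (mul_le_mul_of_nonneg_left hx hL)
        calc ‖B w.1 - B z.1‖ * ‖z.2 - z'.2‖ ≤ L * (t * M) * ‖z.2 - z'.2‖ :=
              mul_le_mul_of_nonneg_right h1 (norm_nonneg _)
          _ = _ := by ring
      · rw [norm_smul, Real.norm_of_nonneg ht.le]
        refine mul_le_mul_of_nonneg_left ((l2 _ _).trans ?_) ht.le
        refine mul_le_mul_of_nonneg_left ?_ hM
        rw [Prod.norm_def]
        simp
    have e3 : 1 / 2 * ‖z.1 - z'.1‖ ^ 2 + t ^ 2 * ‖B z.1 (z.2 - z'.2)‖ ^ 2 ≤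
        ‖z.1 - z'.1 + t • B z.1 (z.2 - z'.2)‖ ^ 2 := by
      have h1 : ‖z.1 - z'.1 + t • B z.1 (z.2 - z'.2)‖ ^ 2 = ‖z.1 - z'.1‖ ^ 2 +
          2 * t * ⟪z.1 - z'.1, B z.1 (z.2 - z'.2)⟫ + t ^ 2 * ‖B z.1 (z.2 - z'.2)‖ ^ 2 := by
        rw [norm_add_sq_real, norm_smul, inner_smul_right, Real.norm_of_nonneg ht.le]
        ring
      rw [h1]
      have h3 : 2 * t * (-C' * ‖z.1 - z'.1‖ ^ 2) ≤
          2 * t * ⟪z.1 - z'.1, B z.1 (z.2 - z'.2)⟫ := mul_le_mul_of_nonneg_left g1 (by positivity)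
      have h6 : 4 * t * C' * ‖z.1 - z'.1‖ ^ 2 ≤ 1 * ‖z.1 - z'.1‖ ^ 2 :=
        mul_le_mul_of_nonneg_right htC (by positivity)
      nlinarith
    have e4 : t * b * ‖z.2 - z'.2‖ ≤ 8 * ‖w.1 - w'.1‖ :=
      arith ht hb (norm_nonneg _) (norm_nonneg _) (norm_nonneg _) (norm_nonneg _) (norm_nonneg _)
        hc4 htM htC htL e2 e3 g2
    have e5 : ‖Φ z - Φ z'‖ ≤ ‖w.1 - w'.1‖ + 2 * ‖z.2 - z'.2‖ := by
      rw [w3, w3', Prod.norm_def]
      refine max_le ?_ ?_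
      · show ‖w.1 - w'.1‖ ≤ _
        linarith [norm_nonneg (z.2 - z'.2)]
      · show ‖w.2 - t • k₁ w - (w'.2 - t • k₁ w')‖ ≤ _
        have h1 : w.2 - t • k₁ w - (w'.2 - t • k₁ w') = (z.2 - z'.2) - t • (k₁ w - k₁ w') := by
          rw [w1, w1', smul_sub]
          abel
        rw [h1]
        refine (norm_sub_le _ _).trans ?_
        rw [norm_smul, Real.norm_of_nonneg ht.le]
        have h2 : ‖w - w'‖ ≤ ‖w.1 - w'.1‖ + ‖z.2 - z'.2‖ := by
          rw [Prod.norm_def]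
          refine max_le ?_ ?_
          · show ‖w.1 - w'.1‖ ≤ _
            linarith [norm_nonneg (z.2 - z'.2)]
          · show ‖w.2 - w'.2‖ ≤ _
            rw [w1, w1']
            linarith [norm_nonneg (w.1 - w'.1)]
        have h3 : t * ‖k₁ w - k₁ w'‖ ≤ 1 / 2 * ‖w - w'‖ := by
          calc t * ‖k₁ w - k₁ w'‖ ≤ t * (M * ‖w - w'‖) := mul_le_mul_of_nonneg_left (l1 _ _) ht.le
            _ = (t * M) * ‖w - w'‖ := by ring
            _ ≤ _ := mul_le_mul_of_nonneg_right htM (norm_nonneg _)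
        linarith [norm_nonneg (w.1 - w'.1), norm_nonneg (z.2 - z'.2)]
    have e6 : (Φ z).1 - (Φ z').1 = w.1 - w'.1 := by rw [w3, w3']
    rw [e6, div_mul_eq_mul_div, div_le_iff₀ (by positivity)]
    have h7 : t * b * ‖Φ z - Φ z'‖ ≤ t * b * (‖w.1 - w'.1‖ + 2 * ‖z.2 - z'.2‖) :=
      mul_le_mul_of_nonneg_left e5 (by positivity)
    nlinarith
  have hlag : LagT n (Φ '' Λ) := by
    obtain ⟨M₁, -, hM₁⟩ : ∃ M₁ : ℝ, 0 ≤ M₁ ∧ ∀ w, ‖k₁ w‖ ≤ M₁ := by
      obtain ⟨k₁', k₂', M', hM', -, -, hk', -, -, b1', -, -, -⟩ := exists_grad K hK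
        (fun w k => by rw [hKd]; simp only [hBp]) (R + 2)
        (fun w hw => by rw [hKd]; simp only [hχ0 _ hw, zero_mul, mul_zero])
      refine ⟨M', hM', fun w => ?_⟩
      have : k₁ w = k₁' w := by
        refine ext_inner_right ℝ fun a => ?_
        have h1 := hk w (a, 0)
        have h2 := hk' w (a, 0)
        simp only [inner_zero_right, add_zero] at h1 h2
        rw [← h1, ← h2]
      rw [this]
      exact b1' w
    refine push hΛ Φ P1 P2 P3 P4 ⟨R + t * M₁, fun z hz => ?_⟩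
    obtain ⟨w, w1, w2, w3⟩ := P5 z
    rw [w3]
    refine (norm_sub_le _ _).trans (add_le_add (by rw [w1]; exact hR z hz) ?_)
    rw [norm_smul, Real.norm_of_nonneg ht.le]
    exact mul_le_mul_of_nonneg_left (hM₁ w) ht.le
  obtain ⟨ψ, q1, q2, q3, q4, q5⟩ := main hlag (fun _ => 0) contDiff_const
    (fun p v w => by simp) (c := t * b / (t * b + 16)) (by positivity) (by
      rintro _ ⟨z, hz, rfl⟩ _ ⟨z', hz', rfl⟩
      simp only [add_zero]
      exact hest z hz z' hz')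
  have P3' : ∀ z (k : Fin n → ℤ),
      Φ.symm (z.1 + latt k, z.2) = ((Φ.symm z).1 + latt k, (Φ.symm z).2) := by
    intro z k
    rw [Equiv.symm_apply_eq, P3]
    simp
  have hdΦ : ∀ y a, fderiv ℝ Φ (Φ.symm y) (fderiv ℝ Φ.symm y a) = a := by
    intro y a
    have f1 : HasFDerivAt Φ (fderiv ℝ Φ (Φ.symm y)) (Φ.symm y) :=
      (P1.differentiable (by simp)).differentiableAt.hasFDerivAt
    have f3 : HasFDerivAt Φ.symm (fderiv ℝ Φ.symm y) y :=
      (P2.differentiable (by simp)).differentiableAt.hasFDerivAt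
    have f5 : HasFDerivAt (fun y => Φ (Φ.symm y))
        ((fderiv ℝ Φ (Φ.symm y)).comp (fderiv ℝ Φ.symm y)) y := f1.comp y f3
    have f6 : (fun y => Φ (Φ.symm y)) = id := by
      funext y
      simp
    rw [f6] at f5
    exact congrArg (fun L : E n × E n →L[ℝ] E n × E n => L a) (f5.unique (hasFDerivAt_id y))
  refine ⟨ψ.trans Φ.symm, P2.comp q1, q2.comp P1, fun z k => ?_, fun z a b => ?_, ?_⟩
  · show Φ.symm (ψ (z.1 + latt k, z.2)) = ((Φ.symm (ψ z)).1 + latt k, (Φ.symm (ψ z)).2)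
    rw [q3, P3']
  · have f1 : HasFDerivAt ψ (fderiv ℝ ψ z) z :=
      (q1.differentiable (by simp)).differentiableAt.hasFDerivAt
    have f2 : HasFDerivAt Φ.symm (fderiv ℝ Φ.symm (ψ z)) (ψ z) :=
      (P2.differentiable (by simp)).differentiableAt.hasFDerivAt
    have f3 : fderiv ℝ (ψ.trans Φ.symm) z = (fderiv ℝ Φ.symm (ψ z)).comp (fderiv ℝ ψ z) :=
      (f2.comp z f1).fderiv
    rw [f3]
    show om (fderiv ℝ Φ.symm (ψ z) (fderiv ℝ ψ z a)) (fderiv ℝ Φ.symm (ψ z) (fderiv ℝ ψ z b)) = _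
    rw [← P4 (Φ.symm (ψ z)), hdΦ, hdΦ, q4]
  · rw [Equiv.coe_trans, image_comp, q5, ← image_comp, Equiv.symm_comp_self, image_id]

end Pool.Agent.Y522.ML
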